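import Mathlib

/-!
# A non-normal completely regular space all of whose subsets are functionally F-sigma

In particular every subset is 1-embedded, and the space is not perfectly normal.
-/

set_option autoImplicit false

namespace Pool.Agent.Results.MP_493890_gt.NonNormal

open Set Topology

universe u

/-- functionally closed sets -/
def FClosed {X : Type u} [TopologicalSpace X] (A : Set X) : Prop :=
  ∃ f : X → ℝ, Continuous f ∧ (∀ x, f x ∈ Icc (0 : ℝ) 1) ∧ A = {x | f x = 0}

/-- functionally open sets -/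
def FOpen {X : Type u} [TopologicalSpace X] (A : Set X) : Prop :=
  ∃ f : X → ℝ, Continuous f ∧ (∀ x, f x ∈ Icc (0 : ℝ) 1) ∧ A = {x | 0 < f x}

/-- functionally F-sigma: a countable union of functionally closed sets -/
def FFsigma {X : Type u} [TopologicalSpace X] (A : Set X) : Prop :=
  ∃ B : Set (Set X), B.Countable ∧ (∀ C ∈ B, FClosed C) ∧ A = ⋃₀ B

/-- functionally G-delta: a countable intersection of functionally open sets -/
def FGdelta {X : Type u} [TopologicalSpace X] (A : Set X) : Prop :=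
  ∃ B : Set (Set X), B.Countable ∧ (∀ C ∈ B, FOpen C) ∧ A = ⋂₀ B

/-- `E` is 1-embedded in `X`. -/
def OneEmbedded {X : Type u} [TopologicalSpace X] (E : Set X) : Prop :=
  (∀ B : Set E, FFsigma B → ∃ C : Set X, FFsigma C ∧ B = Subtype.val ⁻¹' C) ∧
  (∀ B : Set E, FGdelta B → ∃ C : Set X, FGdelta C ∧ B = Subtype.val ⁻¹' C)

section General

variable {X : Type u} [TopologicalSpace X]

theorem fopen_compl {A : Set X} (h : FClosed A) : FOpen Aᶜ := by
  obtain ⟨f, hf, hf1, rfl⟩ := h
  refine ⟨f, hf, hf1, ?_⟩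
  ext x
  simp only [mem_compl_iff, mem_ofPred_eq]
  constructor
  · intro h
    exact lt_of_le_of_ne (hf1 x).1 (Ne.symm h)
  · intro h
    exact h.ne'

theorem fgdelta_of_compl {A : Set X} (h : FFsigma Aᶜ) : FGdelta A := by
  obtain ⟨B, hB, hB1, hB2⟩ := h
  refine ⟨compl '' B, hB.image _, ?_, ?_⟩
  · rintro _ ⟨C, hC, rfl⟩
    exact fopen_compl (hB1 C hC)
  · rw [← compl_compl A, hB2]
    ext x
    simp

theorem fclosed_iInter (W : ℕ → Set X) (hW : ∀ n, IsClopen (W n)) : FClosed (⋂ n, W n) := by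
  classical
  let g : ℕ → X → ℝ := fun n x => if x ∈ W n then 0 else (1 / 2) ^ (n + 1)
  have hg : ∀ n, Continuous (g n) := by
    intro n
    have h1 : Continuous (W n).boolIndicator := (continuous_boolIndicator_iff_isClopen _).2 (hW n)
    have h2 : g n = (fun b : Bool => if b = true then (0 : ℝ) else (1 / 2) ^ (n + 1)) ∘
        (W n).boolIndicator := by
      ext x
      by_cases hx : x ∈ W n
      · simp [g, hx, Set.boolIndicator]
      · simp [g, hx, Set.boolIndicator]
    rw [h2]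
    exact continuous_of_discreteTopology.comp h1
  have hg0 : ∀ n x, 0 ≤ g n x := by
    intro n x
    simp only [g]
    split_ifs
    · exact le_rfl
    · positivity
  have hg1 : ∀ n x, g n x ≤ (1 / 2) ^ (n + 1) := by
    intro n x
    simp only [g]
    split_ifs
    · positivity
    · exact le_rfl
  have hs : Summable (fun n : ℕ => ((1 : ℝ) / 2) ^ (n + 1)) :=
    (summable_nat_add_iff 1).2 (summable_geometric_of_lt_one (by norm_num) (by norm_num))
  have hsx : ∀ x, Summable (fun n => g n x) := fun x =>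
    Summable.of_nonneg_of_le (fun n => hg0 n x) (fun n => hg1 n x) hs
  have hc : Continuous (fun x => ∑' n, g n x) := by
    refine continuous_tsum hg hs ?_
    intro n x
    rw [Real.norm_of_nonneg (hg0 n x)]
    exact hg1 n x
  refine ⟨fun x => min (∑' n, g n x) 1, hc.min continuous_const, fun x => ⟨?_, min_le_right _ _⟩, ?_⟩
  · exact le_min (tsum_nonneg fun n => hg0 n x) zero_le_one
  · ext x
    simp only [mem_iInter, mem_ofPred_eq]
    constructor
    · intro h
      have : ∀ n, g n x = 0 := fun n => by simp [g, h n]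
      simp [this]
    · intro h n
      by_contra hn
      have h1 : g n x = (1 / 2) ^ (n + 1) := by simp [g, hn]
      have h2 : g n x ≤ ∑' n, g n x := (hsx x).le_tsum n (fun m _ => hg0 m x)
      have h3 : (0 : ℝ) < (1 / 2) ^ (n + 1) := by positivity
      rw [h1] at h2
      have h4 : (0 : ℝ) < min (∑' n, g n x) 1 := lt_min (by linarith) one_pos
      exact h4.ne' h

theorem ffsigma_of_forall (h : ∀ A : Set X, FFsigma A) (E : Set X) : OneEmbedded E := by
  constructor
  · intro B _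
    exact ⟨Subtype.val '' B, h _, (preimage_image_eq B Subtype.val_injective).symm⟩
  · intro B _
    exact ⟨Subtype.val '' B, fgdelta_of_compl (h _),
      (preimage_image_eq B Subtype.val_injective).symm⟩

end General

/-! ### The space -/

/-- The points. -/
inductive Pt (S : Type) : Type
  | e : S → Pt S
  | f : ℕ → (S → ℕ) → (Set S → Bool) → Pt S
  | d : ℕ → (S → ℕ) → (Set S → Bool) → ℕ → Pt S

section Space

variable {S : Type}

open Pt

instance : TopologicalSpace (Pt S) where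
  IsOpen U := (∀ s, e s ∈ U → ∃ (m : ℕ) (H : Finset (Set S)), ∀ n i σ k, m ≤ n →
      (∀ Q ∈ H, (σ Q = true ↔ s ∈ Q)) → k ≤ i s → d n i σ k ∈ U) ∧
    (∀ n i σ, f n i σ ∈ U → ∃ j : ℕ, ∀ k, j ≤ k → d n i σ k ∈ U)
  isOpen_univ := ⟨fun _ _ => ⟨0, ∅, fun _ _ _ _ _ _ _ => mem_univ _⟩,
    fun _ _ _ _ => ⟨0, fun _ _ => mem_univ _⟩⟩
  isOpen_inter := by
    classical
    rintro U V ⟨hU1, hU2⟩ ⟨hV1, hV2⟩
    refine ⟨fun s hs => ?_, fun n i σ h => ?_⟩
    · obtain ⟨m, H, h1⟩ := hU1 s hs.1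
      obtain ⟨m', H', h2⟩ := hV1 s hs.2
      refine ⟨max m m', H ∪ H', fun n i σ k hn hQ hk => ⟨?_, ?_⟩⟩
      · exact h1 n i σ k (le_of_max_le_left hn) (fun Q hQH => hQ Q (Finset.mem_union_left _ hQH)) hk
      · exact h2 n i σ k (le_of_max_le_right hn)
          (fun Q hQH => hQ Q (Finset.mem_union_right _ hQH)) hk
    · obtain ⟨j, h1⟩ := hU2 n i σ h.1
      obtain ⟨j', h2⟩ := hV2 n i σ h.2
      exact ⟨max j j', fun k hk => ⟨h1 k (le_of_max_le_left hk), h2 k (le_of_max_le_right hk)⟩⟩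
  isOpen_sUnion := by
    intro 𝒰 h𝒰
    refine ⟨fun s hs => ?_, fun n i σ h => ?_⟩
    · obtain ⟨U, hU, hsU⟩ := hs
      obtain ⟨m, H, h1⟩ := (h𝒰 U hU).1 s hsU
      exact ⟨m, H, fun n i σ k hn hQ hk => ⟨U, hU, h1 n i σ k hn hQ hk⟩⟩
    · obtain ⟨U, hU, hsU⟩ := h
      obtain ⟨j, h1⟩ := (h𝒰 U hU).2 n i σ hsU
      exact ⟨j, fun k hk => ⟨U, hU, h1 k hk⟩⟩

theorem isOpen_def (U : Set (Pt S)) : IsOpen U ↔
    (∀ s, e s ∈ U → ∃ (m : ℕ) (H : Finset (Set S)), ∀ n i σ k, m ≤ n →
      (∀ Q ∈ H, (σ Q = true ↔ s ∈ Q)) → k ≤ i s → d n i σ k ∈ U) ∧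
    (∀ n i σ, f n i σ ∈ U → ∃ j : ℕ, ∀ k, j ≤ k → d n i σ k ∈ U) := Iff.rfl

/-- A subset given by three predicates. -/
def mk (Pe : S → Prop) (Pf : ℕ → (S → ℕ) → (Set S → Bool) → Prop)
    (Pd : ℕ → (S → ℕ) → (Set S → Bool) → ℕ → Prop) : Set (Pt S) :=
  {p | match p with
    | .e s => Pe s
    | .f n i σ => Pf n i σ
    | .d n i σ k => Pd n i σ k}

theorem clopen_mk {Pe : S → Prop} {Pf : ℕ → (S → ℕ) → (Set S → Bool) → Prop}
    {Pd : ℕ → (S → ℕ) → (Set S → Bool) → ℕ → Prop}
    (h1 : ∀ s, ∃ (m : ℕ) (H : Finset (Set S)), ∀ n i σ k, m ≤ n →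
      (∀ Q ∈ H, (σ Q = true ↔ s ∈ Q)) → k ≤ i s → (Pd n i σ k ↔ Pe s))
    (h2 : ∀ n i σ, ∃ j : ℕ, ∀ k, j ≤ k → (Pd n i σ k ↔ Pf n i σ)) :
    IsClopen (mk Pe Pf Pd) := by
  refine ⟨?_, ?_⟩
  · rw [← isOpen_compl_iff, isOpen_def]
    refine ⟨fun s hs => ?_, fun n i σ h => ?_⟩
    · obtain ⟨m, H, h⟩ := h1 s
      exact ⟨m, H, fun n i σ k hn hQ hk hd => hs ((h n i σ k hn hQ hk).1 hd)⟩
    · obtain ⟨j, hj⟩ := h2 n i σ
      exact ⟨j, fun k hk hd => h ((hj k hk).1 hd)⟩
  · rw [isOpen_def]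
    refine ⟨fun s hs => ?_, fun n i σ h => ?_⟩
    · obtain ⟨m, H, h⟩ := h1 s
      exact ⟨m, H, fun n i σ k hn hQ hk => (h n i σ k hn hQ hk).2 hs⟩
    · obtain ⟨j, hj⟩ := h2 n i σ
      exact ⟨j, fun k hk => (hj k hk).2 h⟩

/-- Every subset is functionally F-sigma. -/
theorem ffsigma_all (A : Set (Pt S)) : FFsigma A := by
  classical
  let BD : ℕ × ℕ → Set (Pt S) := fun q => mk (fun _ => False) (fun _ _ _ => False)
    (fun n i σ k => n = q.1 ∧ k = q.2 ∧ d n i σ k ∈ A)
  let BF : ℕ → ℕ → Set (Pt S) := fun n0 j => mk (fun _ => False)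
    (fun n i σ => n = n0 ∧ f n i σ ∈ A) (fun n i σ k => n = n0 ∧ f n i σ ∈ A ∧ j ≤ k)
  let T : Set S := {s | e s ∈ A}
  let BE : ℕ → Set (Pt S) := fun m => mk (fun s => s ∈ T) (fun n _ σ => m ≤ n ∧ σ T = true)
    (fun n _ σ _ => m ≤ n ∧ σ T = true)
  have hBD : ∀ q, IsClopen (BD q) := by
    rintro ⟨n0, k0⟩
    refine clopen_mk (fun s => ⟨n0 + 1, ∅, fun n i σ k hn _ _ => ?_⟩)
      (fun n i σ => ⟨k0 + 1, fun k hk => ?_⟩)
    · simp only [iff_false]
      rintro ⟨rfl, -⟩
      omega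
    · simp only [iff_false]
      rintro ⟨-, rfl, -⟩
      omega
  have hBF : ∀ n0 j, IsClopen (BF n0 j) := by
    intro n0 j
    refine clopen_mk (fun s => ⟨n0 + 1, ∅, fun n i σ k hn _ _ => ?_⟩)
      (fun n i σ => ⟨j, fun k hk => ?_⟩)
    · simp only [iff_false]
      rintro ⟨rfl, -⟩
      omega
    · simp only [hk, and_true]
  have hBE : ∀ m, IsClopen (BE m) := by
    intro m
    refine clopen_mk (fun s => ⟨m, {T}, fun n i σ k hn hQ _ => ?_⟩)
      (fun n i σ => ⟨0, fun k _ => Iff.rfl⟩)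
    have := hQ T (Finset.mem_singleton_self T)
    simp only [hn, true_and]
    exact this
  refine ⟨range BD ∪ range (fun n0 => ⋂ j, BF n0 j) ∪ {⋂ m, BE m}, ?_, ?_, ?_⟩
  · exact ((countable_range _).union (countable_range _)).union (countable_singleton _)
  · rintro C ((⟨q, rfl⟩ | ⟨n0, rfl⟩) | rfl)
    · have h0 := fclosed_iInter (fun _ : ℕ => BD q) (fun _ => hBD q)
      rw [iInter_const] at h0
      exact h0
    · exact fclosed_iInter _ (hBF n0)
    · exact fclosed_iInter _ hBE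
  · ext p
    constructor
    · intro hp
      cases p with
      | e s =>
        refine ⟨_, Or.inr rfl, mem_iInter.2 fun m => ?_⟩
        exact hp
      | f n i σ =>
        refine ⟨_, Or.inl (Or.inr ⟨n, rfl⟩), mem_iInter.2 fun j => ?_⟩
        exact ⟨rfl, hp⟩
      | d n i σ k =>
        exact ⟨_, Or.inl (Or.inl ⟨(n, k), rfl⟩), ⟨rfl, rfl, hp⟩⟩
    · rintro ⟨C, ((⟨q, rfl⟩ | ⟨n0, rfl⟩) | rfl), hC⟩
      · cases p with
        | e s => exact hC.elim
        | f n i σ => exact hC.elim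
        | d n i σ k => exact hC.2.2
      · cases p with
        | e s => exact (mem_iInter.1 hC 0).elim
        | f n i σ => exact (mem_iInter.1 hC 0).2
        | d n i σ k =>
          have h3 : d n i σ k ∈ BF n0 (k + 1) := mem_iInter.1 hC (k + 1)
          have h4 : k + 1 ≤ k := h3.2.2
          omega
      · cases p with
        | e s => exact mem_iInter.1 hC 0
        | f n i σ =>
          have h3 : f n i σ ∈ BE (n + 1) := mem_iInter.1 hC (n + 1)
          have h4 : n + 1 ≤ n := h3.1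
          omega
        | d n i σ k =>
          have h3 : d n i σ k ∈ BE (n + 1) := mem_iInter.1 hC (n + 1)
          have h4 : n + 1 ≤ n := h3.1
          omega

/-- Every point has a base of clopen neighbourhoods. -/
theorem clopen_base (p : Pt S) (U : Set (Pt S)) (hU : IsOpen U) (hp : p ∈ U) :
    ∃ C, IsClopen C ∧ p ∈ C ∧ C ⊆ U := by
  classical
  rw [isOpen_def] at hU
  cases p with
  | e s =>
    obtain ⟨m, H, h⟩ := hU.1 s hp
    refine ⟨mk (fun t => t = s) (fun _ _ _ => False) (fun n i σ k => m ≤ n ∧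
      (∀ Q ∈ H, (σ Q = true ↔ s ∈ Q)) ∧ σ {s} = true ∧ k ≤ i s), ?_, rfl, ?_⟩
    · refine clopen_mk (fun t => ?_) (fun n i σ => ⟨i s + 1, fun k hk => ?_⟩)
      · by_cases hts : t = s
        · subst hts
          refine ⟨m, insert {t} H, fun n i σ k hn hQ hk => ?_⟩
          simp only [iff_true]
          refine ⟨hn, fun Q hQH => hQ Q (Finset.mem_insert_of_mem hQH), ?_, hk⟩
          exact (hQ {t} (Finset.mem_insert_self _ _)).2 rfl
        · refine ⟨0, {{s}}, fun n i σ k hn hQ hk => ?_⟩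
          simp only [hts, iff_false]
          rintro ⟨-, -, h3, -⟩
          exact hts ((hQ {s} (Finset.mem_singleton_self _)).1 h3)
      · simp only [iff_false]
        rintro ⟨-, -, -, h3⟩
        omega
    · intro q hq
      cases q with
      | e t =>
        have : t = s := hq
        rw [this]
        exact hp
      | f n i σ => exact hq.elim
      | d n i σ k => exact h n i σ k hq.1 hq.2.1 hq.2.2.2
  | f n0 i0 σ0 =>
    obtain ⟨j, h⟩ := hU.2 n0 i0 σ0 hp
    refine ⟨mk (fun _ => False) (fun n i σ => n = n0 ∧ i = i0 ∧ σ = σ0)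
      (fun n i σ k => (n = n0 ∧ i = i0 ∧ σ = σ0) ∧ j ≤ k), ?_, ⟨rfl, rfl, rfl⟩, ?_⟩
    · refine clopen_mk (fun t => ⟨n0 + 1, ∅, fun n i σ k hn _ _ => ?_⟩)
        (fun n i σ => ⟨j, fun k hk => ?_⟩)
      · simp only [iff_false]
        rintro ⟨⟨rfl, -⟩, -⟩
        omega
      · simp only [hk, and_true]
    · intro q hq
      cases q with
      | e t => exact hq.elim
      | f n i σ =>
        obtain ⟨rfl, rfl, rfl⟩ := hq
        exact hp
      | d n i σ k =>
        obtain ⟨⟨rfl, rfl, rfl⟩, hk⟩ := hq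
        exact h k hk
  | d n0 i0 σ0 k0 =>
    refine ⟨mk (fun _ => False) (fun _ _ _ => False)
      (fun n i σ k => n = n0 ∧ i = i0 ∧ σ = σ0 ∧ k = k0), ?_, ⟨rfl, rfl, rfl, rfl⟩, ?_⟩
    · refine clopen_mk (fun t => ⟨n0 + 1, ∅, fun n i σ k hn _ _ => ?_⟩)
        (fun n i σ => ⟨k0 + 1, fun k hk => ?_⟩)
      · simp only [iff_false]
        rintro ⟨rfl, -⟩
        omega
      · simp only [iff_false]
        rintro ⟨-, -, -, rfl⟩
        omega
    · intro q hq
      cases q with
      | e t => exact hq.elim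
      | f n i σ => exact hq.elim
      | d n i σ k =>
        obtain ⟨rfl, rfl, rfl, rfl⟩ := hq
        exact hp

theorem creg : CompletelyRegularSpace (Pt S) := by
  classical
  refine ⟨fun x K hK hx => ?_⟩
  obtain ⟨C, hC, hxC, hCK⟩ := clopen_base x Kᶜ hK.isOpen_compl hx
  refine ⟨(fun b : Bool => if b = true then (0 : unitInterval) else 1) ∘ C.boolIndicator,
    continuous_of_discreteTopology.comp ((continuous_boolIndicator_iff_isClopen _).2 hC), ?_, ?_⟩
  · simp [Set.boolIndicator, hxC]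
  · intro y hy
    have : y ∉ C := fun h => hCK h hy
    simp [Set.boolIndicator, this]

theorem t1 : T1Space (Pt S) := by
  refine ⟨fun x => ?_⟩
  rw [← isOpen_compl_iff, isOpen_def]
  cases x with
  | e s => exact ⟨fun t _ => ⟨0, ∅, fun n i σ k _ _ _ => by simp⟩,
      fun n i σ _ => ⟨0, fun k _ => by simp⟩⟩
  | f n0 i0 σ0 => exact ⟨fun t _ => ⟨0, ∅, fun n i σ k _ _ _ => by simp⟩,
      fun n i σ _ => ⟨0, fun k _ => by simp⟩⟩
  | d n0 i0 σ0 k0 =>
    refine ⟨fun t _ => ⟨n0 + 1, ∅, fun n i σ k hn _ _ => ?_⟩,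
      fun n i σ _ => ⟨k0 + 1, fun k hk => ?_⟩⟩
    · simp only [mem_compl_iff, mem_singleton_iff, d.injEq]
      rintro ⟨rfl, -⟩
      omega
    · simp only [mem_compl_iff, mem_singleton_iff, d.injEq]
      rintro ⟨-, -, -, rfl⟩
      omega

/-- Infinitely many finite partial functions of bounded size: infinitely many of them have a
common extension. -/
theorem exists_common {α β : Type} (h : ℕ) : ∀ (J : Set α), J.Infinite → ∀ (H : α → Finset β)
    (v : α → β → Bool), (∀ a ∈ J, (H a).card ≤ h) →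
    ∃ σ : β → Bool, {a ∈ J | ∀ Q ∈ H a, σ Q = v a Q}.Infinite := by
  classical
  induction h with
  | zero =>
    intro J hJ H v hc
    refine ⟨fun _ => false, hJ.mono fun a ha => ⟨ha, fun Q hQ => ?_⟩⟩
    have := Finset.card_eq_zero.1 (Nat.le_zero.1 (hc a ha))
    rw [this] at hQ
    simp at hQ
  | succ h ih =>
    intro J hJ H v hc
    by_cases hA : ∃ Q, {a ∈ J | Q ∈ H a}.Infinite
    · obtain ⟨Q, hQ⟩ := hA
      obtain ⟨b, hb⟩ : ∃ b : Bool, {a ∈ J | Q ∈ H a ∧ v a Q = b}.Infinite := by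
        by_contra hcon
        push Not at hcon
        have h1 := hcon true
        have h2 := hcon false
        refine hQ ((h1.union h2).subset fun a ha => ?_)
        cases hv : v a Q
        · exact Or.inr ⟨ha.1, ha.2, hv⟩
        · exact Or.inl ⟨ha.1, ha.2, hv⟩
      obtain ⟨σ, hσ⟩ := ih _ hb (fun a => (H a).erase Q) v (by
        rintro a ⟨haJ, haQ, -⟩
        rw [Finset.card_erase_of_mem haQ]
        have := hc a haJ
        omega)
      refine ⟨Function.update σ Q b, hσ.mono ?_⟩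
      rintro a ⟨⟨haJ, haQ, hav⟩, ha⟩
      refine ⟨haJ, fun R hR => ?_⟩
      by_cases hRQ : R = Q
      · subst hRQ
        rw [Function.update_self]
        exact hav.symm
      · rw [Function.update_of_ne hRQ]
        exact ha R (Finset.mem_erase.2 ⟨hRQ, hR⟩)
    · push Not at hA
      have hA' : ∀ Q, {a ∈ J | Q ∈ H a}.Finite := hA
      obtain ⟨g, hg, hgr⟩ := exists_seq_of_forall_finset_exists (fun a => a ∈ J)
        (fun x y => x ≠ y ∧ Disjoint (H x) (H y)) (by
          intro s hs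
          have hfin : ((s : Set α) ∪ ⋃ Q ∈ (s.biUnion H : Finset β), {a ∈ J | Q ∈ H a}).Finite :=
            s.finite_toSet.union ((s.biUnion H).finite_toSet.biUnion fun Q _ => hA' Q)
          obtain ⟨y, hy, hyn⟩ := hJ.exists_notMem_finite hfin
          refine ⟨y, hy, fun x hx => ⟨?_, ?_⟩⟩
          · rintro rfl
            exact hyn (Or.inl hx)
          · rw [Finset.disjoint_left]
            intro Q hQx hQy
            refine hyn (Or.inr ?_)
            simp only [mem_iUnion]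
            exact ⟨Q, Finset.mem_biUnion.2 ⟨x, hx, hQx⟩, hy, hQy⟩)
      have hginj : Function.Injective g := by
        intro m n hmn
        by_contra hne
        rcases lt_or_gt_of_ne hne with h1 | h1
        · exact (hgr m n h1).1 hmn
        · exact (hgr n m h1).1 hmn.symm
      have huniq : ∀ m n Q, Q ∈ H (g m) → Q ∈ H (g n) → m = n := by
        intro m n Q hm hn
        by_contra hne
        rcases lt_or_gt_of_ne hne with h1 | h1
        · exact Finset.disjoint_left.1 (hgr m n h1).2 hm hn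
        · exact Finset.disjoint_left.1 (hgr n m h1).2 hn hm
      let σ : β → Bool := fun Q => if hQ : ∃ n, Q ∈ H (g n) then v (g hQ.choose) Q else false
      refine ⟨σ, (Set.infinite_range_of_injective hginj).mono ?_⟩
      rintro _ ⟨n, rfl⟩
      refine ⟨hg n, fun Q hQ => ?_⟩
      have hex : ∃ n, Q ∈ H (g n) := ⟨n, hQ⟩
      have : hex.choose = n := huniq _ _ Q hex.choose_spec hQ
      simp only [σ, dif_pos hex, this]

theorem not_normal [Uncountable S] : ¬ NormalSpace (Pt S) := by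
  classical
  intro hN
  have hE : IsClosed (range (e : S → Pt S)) := by
    rw [← isOpen_compl_iff, isOpen_def]
    refine ⟨fun s hs => absurd ⟨s, rfl⟩ hs, fun n i σ _ => ⟨0, fun k _ => ?_⟩⟩
    rintro ⟨s, hs⟩
    cases hs
  have hF : IsClosed {p : Pt S | ∃ n i σ, p = f n i σ} := by
    rw [← isOpen_compl_iff, isOpen_def]
    refine ⟨fun s _ => ⟨0, ∅, fun n i σ k _ _ _ => ?_⟩, fun n i σ h => absurd ⟨n, i, σ, rfl⟩ h⟩
    rintro ⟨n', i', σ', h⟩
    cases h
  have hEF : Disjoint (range (e : S → Pt S)) {p : Pt S | ∃ n i σ, p = f n i σ} := by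
    rw [Set.disjoint_left]
    rintro _ ⟨s, rfl⟩ ⟨n, i, σ, h⟩
    cases h
  obtain ⟨O, O', hO, hO', hEO, hFO, hOO⟩ := normal_separation hE hF hEF
  rw [isOpen_def] at hO hO'
  have h1 : ∀ s, ∃ (m : ℕ) (H : Finset (Set S)), ∀ n i σ k, m ≤ n →
      (∀ Q ∈ H, (σ Q = true ↔ s ∈ Q)) → k ≤ i s → d n i σ k ∈ O := fun s =>
    hO.1 s (hEO ⟨s, rfl⟩)
  choose m H h1 using h1
  have h2 : ∀ n i σ, ∃ j : ℕ, ∀ k, j ≤ k → d n i σ k ∈ O' := fun n i σ =>
    hO'.2 n i σ (hFO ⟨n, i, σ, rfl⟩)
  choose ψ h2 using h2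
  -- infinitely many points with the same data
  obtain ⟨q, hq⟩ : ∃ q : ℕ × ℕ, {s | (m s, (H s).card) = q}.Infinite := by
    by_contra hcon
    push Not at hcon
    have h3 : (univ : Set S) = ⋃ q : ℕ × ℕ, {s | (m s, (H s).card) = q} := by
      ext s
      simp
    have h4 : (univ : Set S).Countable := by
      rw [h3]
      exact countable_iUnion fun q => (hcon q).countable
    exact not_countable (α := S) (countable_univ_iff.1 h4)
  obtain ⟨σ, hσ⟩ := exists_common q.2 _ hq H (fun s Q => decide (s ∈ Q)) (by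
    rintro s hs
    have h7 : (m s, (H s).card) = q := hs
    exact (congrArg Prod.snd h7).le)
  let emb := hσ.natEmbedding
  have hemb : Function.Injective (fun n => (emb n).1) := fun a b hab =>
    emb.injective (Subtype.ext hab)
  let i : S → ℕ := fun s => if h : ∃ n, (emb n).1 = s then h.choose else 0
  have hi : ∀ n, i (emb n).1 = n := by
    intro n
    have hex : ∃ n', (emb n').1 = (emb n).1 := ⟨n, rfl⟩
    have h3 : hex.choose = n := hemb hex.choose_spec
    simp only [i, dif_pos hex, h3]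
  let j : ℕ := ψ q.1 i σ
  obtain ⟨hs1, hs2⟩ := (emb j).2
  have hm : m (emb j).1 = q.1 := by
    have h7 : (m (emb j).1, (H (emb j).1).card) = q := hs1
    exact congrArg Prod.fst h7
  have h5 : d q.1 i σ j ∈ O := by
    refine h1 (emb j).1 q.1 i σ j hm.le (fun Q hQ => ?_) (hi j).ge
    rw [hs2 Q hQ]
    simp
  have h6 : d q.1 i σ j ∈ O' := h2 q.1 i σ j le_rfl
  exact Set.disjoint_left.1 hOO h5 h6

end Space

/-- **There is a completely regular Hausdorff space `X` that is not normal (hence not perfectly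
normal) in which every subset is functionally F-sigma and functionally G-delta; in particular
every subset of `X` is 1-embedded in `X`.** -/
theorem result : ∃ (X : Type) (_ : TopologicalSpace X), CompletelyRegularSpace X ∧ T2Space X ∧
    ¬ NormalSpace X ∧ ¬ PerfectlyNormalSpace X ∧ (∀ A : Set X, FFsigma A ∧ FGdelta A) ∧
    ∀ E : Set X, OneEmbedded E := by
  have hcr : CompletelyRegularSpace (Pt ℝ) := creg
  have ht1 : T1Space (Pt ℝ) := t1
  have hn : ¬ NormalSpace (Pt ℝ) := not_normal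
  refine ⟨Pt ℝ, inferInstance, hcr, ?_, hn, fun h => hn h.toNormalSpace,
    fun A => ⟨ffsigma_all A, fgdelta_of_compl (ffsigma_all _)⟩, ffsigma_of_forall ffsigma_all⟩
  have : T35Space (Pt ℝ) := { }
  infer_instance

end Pool.Agent.Results.MP_493890_gt.NonNormal
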